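import Pool.Agent.Helper87.MD.Goals

set_option autoImplicit false

open Finset
open scoped Classical

namespace Pool.Agent.Helper73.MD

open Pool.Agent.Helper98.Lang Pool.Agent.Helper87.MD

/-- signed distance to the nearest integer -/
noncomputable def rr (x : ℝ) : ℝ := x - round x

theorem nd_le (x : ℝ) (m : ℤ) : nd x ≤ |x - m| := round_le x m

theorem nd_rr (x : ℝ) : nd x = |rr x| := rfl

theorem nd_neg (x : ℝ) : nd (-x) = nd x := by
  have h1 : ∀ y : ℝ, nd (-y) ≤ nd y := by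
    intro y
    have := nd_le (-y) (-(round y))
    refine this.trans (le_of_eq ?_)
    unfold nd
    push_cast
    rw [← abs_neg]
    congr 1
    ring
  apply le_antisymm (h1 x)
  have := h1 (-x)
  rwa [neg_neg] at this

theorem round_unique (y : ℝ) (m : ℤ) (h : |y - m| < 1 / 2) : round y = m := by
  have h1 := abs_sub_round y
  have h2 : |((round y - m : ℤ) : ℝ)| < 1 := by
    push_cast
    have : (round y : ℝ) - m = (y - m) - (y - round y) := by ring
    rw [this]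
    calc |(y - m) - (y - round y)| ≤ |y - m| + |y - round y| := abs_sub _ _
      _ < 1 := by linarith
  rw [← Int.cast_abs] at h2
  have h3 : |round y - m| < 1 := by exact_mod_cast h2
  have := Int.abs_lt_one_iff.mp h3
  omega

/-- elements -/
noncomputable def EE (α η : ℝ) (X : ℕ) : Finset ℕ :=
  (Icc 1 X).filter (fun x : ℕ => nd ((x : ℝ) * α) ≤ η)

theorem core (α η ρ : ℝ) (w X : ℕ) (n : ℤ) (hη : 0 < η) (hη4 : η < 1 / 4) (hw : 1 ≤ w)
    (hρ : (w : ℝ) * α - n = ρ) (hρ0 : 0 < ρ) (hρ2 : ρ ≤ 2 * η)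
    (hmin : ∀ v : ℕ, 1 ≤ v → v < w → 2 * η < nd ((v : ℝ) * α)) :
    ∃ J : ℕ, (J : ℝ) ≤ 2 * η / ρ ∧ (J : ℝ) ≤ X / w ∧
      ((EE α η X).card : ℝ) ≤ (2 + 2 * ρ * X) * (1 + J) := by
  set E := EE α η X with hE
  have hmem : ∀ x, x ∈ E ↔ (1 ≤ x ∧ x ≤ X) ∧ |rr ((x : ℝ) * α)| ≤ η := by
    intro x
    rw [hE, EE, mem_filter, mem_Icc, nd_rr]
  set S1 := E.filter (fun x => x ≤ w) with hS1
  set S2 := E.filter (fun x : ℕ => rr ((x : ℝ) * α) < -η + ρ) with hS2
  have c1 : S1.card ≤ 1 := by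
    rw [Finset.card_le_one]
    have key : ∀ a ∈ S1, ∀ b ∈ S1, ¬ a < b := by
      intro a ha b hb hab
      rw [hS1, mem_filter, hmem] at ha hb
      obtain ⟨⟨⟨ha1, ha2⟩, ha3⟩, ha4⟩ := ha
      obtain ⟨⟨⟨hb1, hb2⟩, hb3⟩, hb4⟩ := hb
      have h := hmin (b - a) (by omega) (by omega)
      have h2 := nd_le (((b - a : ℕ) : ℝ) * α) (round ((b : ℝ) * α) - round ((a : ℝ) * α))
      have h3 : ((b - a : ℕ) : ℝ) * α - ((round ((b : ℝ) * α) - round ((a : ℝ) * α) : ℤ) : ℝ)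
          = rr ((b : ℝ) * α) - rr ((a : ℝ) * α) := by
        rw [Nat.cast_sub hab.le]
        unfold rr
        push_cast
        ring
      rw [h3] at h2
      have h4 := abs_sub (rr ((b : ℝ) * α)) (rr ((a : ℝ) * α))
      linarith
    intro a ha b hb
    rcases lt_trichotomy a b with h | h | h
    · exact absurd h (key a ha b hb)
    · exact h
    · exact absurd h (key b hb a ha)
  have gap : ∀ a ∈ S2, ∀ b ∈ S2, a < b → 1 < 2 * ρ * ((b : ℝ) - a) := by
    intro a ha b hb hab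
    rw [hS2, mem_filter, hmem] at ha hb
    obtain ⟨⟨⟨ha1, ha2⟩, ha3⟩, ha4⟩ := ha
    obtain ⟨⟨⟨hb1, hb2⟩, hb3⟩, hb4⟩ := hb
    set τ := rr ((b : ℝ) * α) - rr ((a : ℝ) * α) with hτ
    have ha5 := (abs_le.mp ha3)
    have hb5 := (abs_le.mp hb3)
    have hτρ : |τ| < ρ := by
      rw [abs_lt]
      constructor <;> linarith [ha5.1, hb5.1]
    have h2 := nd_le (((b - a : ℕ) : ℝ) * α) (round ((b : ℝ) * α) - round ((a : ℝ) * α))
    have h3 : ((b - a : ℕ) : ℝ) * α - ((round ((b : ℝ) * α) - round ((a : ℝ) * α) : ℤ) : ℝ)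
        = τ := by
      rw [Nat.cast_sub hab.le, hτ]
      unfold rr
      push_cast
      ring
    rw [h3] at h2
    have hu : w ≤ b - a := by
      by_contra hcon
      have := hmin (b - a) (by omega) (by omega)
      linarith
    have hu' : (w : ℝ) ≤ (b : ℝ) - a := by
      have : ((w : ℕ) : ℝ) ≤ ((b - a : ℕ) : ℝ) := by exact_mod_cast hu
      rwa [Nat.cast_sub hab.le] at this
    have hw' : (1 : ℝ) ≤ w := by exact_mod_cast hw
    -- the integer
    set K : ℤ := ((b - a : ℕ) : ℤ) * n - (w : ℤ) * (round ((b : ℝ) * α) - round ((a : ℝ) * α))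
      with hK
    have hK' : (K : ℝ) = (w : ℝ) * τ - ((b : ℝ) - a) * ρ := by
      rw [hK, ← hρ, ← h3, Nat.cast_sub hab.le]
      push_cast [Nat.cast_sub hab.le]
      ring
    have hwτ : |(w : ℝ) * τ| < ((b : ℝ) - a) * ρ := by
      rw [abs_mul, abs_of_nonneg (by positivity : (0 : ℝ) ≤ w)]
      calc (w : ℝ) * |τ| < w * ρ := by
            apply mul_lt_mul_of_pos_left hτρ
            linarith
        _ ≤ ((b : ℝ) - a) * ρ := mul_le_mul_of_nonneg_right hu' hρ0.le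
    have hwτ2 := abs_lt.mp hwτ
    have hKne : K ≠ 0 := by
      intro h0
      rw [h0] at hK'
      push_cast at hK'
      linarith [hwτ2.2]
    have hK1 : (1 : ℝ) ≤ |(K : ℝ)| := by
      rw [← Int.cast_abs]
      exact_mod_cast Int.one_le_abs hKne
    rw [hK'] at hK1
    have : |(w : ℝ) * τ - ((b : ℝ) - a) * ρ| < 2 * ρ * ((b : ℝ) - a) := by
      rw [abs_lt]
      constructor <;> nlinarith [hwτ2.1, hwτ2.2]
    linarith
  have c2 : (S2.card : ℝ) ≤ 1 + 2 * ρ * X := by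
    have hinj : Set.InjOn (fun x : ℕ => ⌊2 * ρ * x⌋₊) (S2 : Set ℕ) := by
      have key : ∀ a ∈ S2, ∀ b ∈ S2, a < b → ⌊2 * ρ * a⌋₊ ≠ ⌊2 * ρ * b⌋₊ := by
        intro a ha b hb hab heq
        have h1 := gap a ha b hb hab
        have h2 : (⌊2 * ρ * b⌋₊ : ℝ) ≤ 2 * ρ * b := Nat.floor_le (by positivity)
        have h3 := Nat.lt_floor_add_one (2 * ρ * (b : ℝ))
        have h4 : (⌊2 * ρ * a⌋₊ : ℝ) ≤ 2 * ρ * a := Nat.floor_le (by positivity)
        rw [← heq] at h3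
        linarith
      intro a ha b hb heq
      rcases lt_trichotomy a b with h | h | h
      · exact absurd heq (key a (by exact_mod_cast ha) b (by exact_mod_cast hb) h)
      · exact h
      · exact absurd heq.symm (key b (by exact_mod_cast hb) a (by exact_mod_cast ha) h)
    have hmaps : ∀ x ∈ S2, (fun x : ℕ => ⌊2 * ρ * x⌋₊) x ∈ range (⌊2 * ρ * X⌋₊ + 1) := by
      intro x hx
      rw [hS2, mem_filter, hmem] at hx
      rw [mem_range, Nat.lt_succ_iff]
      apply Nat.floor_le_floor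
      apply mul_le_mul_of_nonneg_left _ (by positivity)
      exact_mod_cast hx.1.1.2
    have hcard := Finset.card_le_card_of_injOn _ hmaps hinj
    rw [card_range] at hcard
    have h5 : (⌊2 * ρ * X⌋₊ : ℝ) ≤ 2 * ρ * X := Nat.floor_le (by positivity)
    have : (S2.card : ℝ) ≤ ⌊2 * ρ * X⌋₊ + 1 := by exact_mod_cast hcard
    linarith
  -- steps
  have step : ∀ x ∈ E, x ∉ S1 → x ∉ S2 → w < x ∧ x - w ∈ E ∧
      rr ((x : ℝ) * α) = rr (((x - w : ℕ) : ℝ) * α) + ρ := by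
    intro x hx h1 h2
    have hxw : w < x := by
      by_contra hcon
      exact h1 (by rw [hS1, mem_filter]; exact ⟨hx, by omega⟩)
    have hr : -η + ρ ≤ rr ((x : ℝ) * α) := by
      by_contra hcon
      exact h2 (by rw [hS2, mem_filter]; exact ⟨hx, by linarith⟩)
    rw [hmem] at hx
    have hx2 := abs_le.mp hx.2
    have e1 : ((x - w : ℕ) : ℝ) * α - ((round ((x : ℝ) * α) - n : ℤ) : ℝ)
        = rr ((x : ℝ) * α) - ρ := by
      rw [Nat.cast_sub hxw.le, ← hρ]
      unfold rr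
      push_cast
      ring
    have e2 : |rr ((x : ℝ) * α) - ρ| ≤ η := by
      rw [abs_le]
      constructor <;> linarith [hx2.1, hx2.2]
    have e3 : round (((x - w : ℕ) : ℝ) * α) = round ((x : ℝ) * α) - n := by
      apply round_unique
      rw [e1]
      linarith
    have e4 : rr (((x - w : ℕ) : ℝ) * α) = rr ((x : ℝ) * α) - ρ := by
      rw [← e1]
      unfold rr
      rw [e3]
    refine ⟨hxw, ?_, by rw [e4]; ring⟩
    rw [hmem]
    refine ⟨⟨by omega, by omega⟩, ?_⟩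
    rw [e4]
    exact e2
  have chain : ∀ x : ℕ, x ∈ E → ∃ x0 ∈ S1 ∪ S2, ∃ j : ℕ, x = x0 + j * w ∧
      rr ((x : ℝ) * α) = rr ((x0 : ℝ) * α) + j * ρ := by
    intro x
    induction x using Nat.strong_induction_on with
    | _ x ih =>
      intro hx
      by_cases h : x ∈ S1 ∪ S2
      · exact ⟨x, h, 0, by simp, by simp⟩
      · rw [mem_union, not_or] at h
        obtain ⟨h1, h2, h3⟩ := step x hx h.1 h.2
        obtain ⟨x0, hx0, j, hj1, hj2⟩ := ih (x - w) (by omega) h2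
        refine ⟨x0, hx0, j + 1, ?_, ?_⟩
        · have : (j + 1) * w = j * w + w := by ring
          omega
        · rw [h3, hj2]
          push_cast
          ring
  set J := ⌊min (2 * η / ρ) ((X : ℝ) / w)⌋₊ with hJ
  have hmn : 0 ≤ min (2 * η / ρ) ((X : ℝ) / w) := le_min (by positivity) (by positivity)
  have hJle : (J : ℝ) ≤ min (2 * η / ρ) ((X : ℝ) / w) := Nat.floor_le hmn
  have hw' : (0 : ℝ) < w := by
    have : (1 : ℝ) ≤ w := by exact_mod_cast hw
    linarith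
  refine ⟨J, hJle.trans (min_le_left _ _), hJle.trans (min_le_right _ _), ?_⟩
  have hsub : E ⊆ ((S1 ∪ S2) ×ˢ range (J + 1)).image (fun p : ℕ × ℕ => p.1 + p.2 * w) := by
    intro x hx
    obtain ⟨x0, hx0, j, hj1, hj2⟩ := chain x hx
    rw [mem_image]
    refine ⟨(x0, j), ?_, hj1.symm⟩
    rw [mem_product]
    refine ⟨hx0, ?_⟩
    rw [mem_range, Nat.lt_succ_iff]
    apply Nat.le_floor
    have hx0E : x0 ∈ E := by
      rcases mem_union.mp hx0 with h | h
      · exact (mem_filter.mp h).1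
      · exact (mem_filter.mp h).1
    rw [hmem] at hx hx0E
    have g1 := abs_le.mp hx.2
    have g2 := abs_le.mp hx0E.2
    apply le_min
    · rw [le_div_iff₀ hρ0]
      show (j : ℝ) * ρ ≤ 2 * η
      linarith [g1.2, g2.1]
    · rw [le_div_iff₀ hw']
      have : j * w ≤ X := by
        have := hx.1.2
        omega
      show (j : ℝ) * w ≤ X
      exact_mod_cast this
  have h1 := (card_le_card hsub).trans card_image_le
  rw [card_product, card_range] at h1
  have h2 : (((S1 ∪ S2).card : ℕ) : ℝ) ≤ 2 + 2 * ρ * X := by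
    have h3 : (S1 ∪ S2).card ≤ 1 + S2.card := (card_union_le _ _).trans (by omega)
    have h4 : (((S1 ∪ S2).card : ℕ) : ℝ) ≤ 1 + S2.card := by exact_mod_cast h3
    linarith
  calc (E.card : ℝ) ≤ ((S1 ∪ S2).card : ℝ) * (J + 1) := by exact_mod_cast h1
    _ ≤ (2 + 2 * ρ * X) * (J + 1) := mul_le_mul_of_nonneg_right h2 (by positivity)
    _ = (2 + 2 * ρ * X) * (1 + J) := by ring

theorem mdLAT : LatStmt := by
  intro ξ hξ δ hδ
  obtain ⟨c, hc, hR⟩ := hξ δ hδ
  refine ⟨8 + 6 / Real.sqrt c, by positivity, ?_⟩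
  intro s X η hs hX hη
  set B : ℝ := η * ((s : ℝ) * X) ^ (1 + δ) with hB
  have hs' : (1 : ℝ) ≤ s := by exact_mod_cast hs
  have hX' : (1 : ℝ) ≤ X := by exact_mod_cast hX
  have hsX : (0 : ℝ) < (s : ℝ) * X := by positivity
  have hBpos : 0 < B := by positivity
  rw [← Real.sqrt_eq_rpow]
  have hsc : 0 < Real.sqrt c := Real.sqrt_pos.mpr hc
  have hsB : 0 ≤ Real.sqrt B := Real.sqrt_nonneg B
  show ((EE ((s : ℝ) * ξ) η X).card : ℝ) ≤ _
  by_cases hη4 : η < 1 / 4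
  swap
  · have h1 : ((EE ((s : ℝ) * ξ) η X).card : ℝ) ≤ X := by
      have : (EE ((s : ℝ) * ξ) η X).card ≤ (Icc 1 X).card := card_le_card (filter_subset _ _)
      rw [Nat.card_Icc] at this
      have h2 : (EE ((s : ℝ) * ξ) η X).card ≤ X := by omega
      exact_mod_cast h2
    have h3 : (X : ℝ) ≤ 4 * (η * X) := by nlinarith
    have h4 : 0 ≤ 6 / Real.sqrt c * (η * X) := by positivity
    have h5 : 0 ≤ (8 + 6 / Real.sqrt c) * Real.sqrt B := by positivity
    have h6 : 0 ≤ η * X := by positivity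
    nlinarith
  rcases (EE ((s : ℝ) * ξ) η X).eq_empty_or_nonempty with hem | ⟨x1, hx1⟩
  · rw [hem]
    simp only [card_empty, Nat.cast_zero]
    positivity
  -- there is an element
  have hx1' := hx1
  rw [EE, mem_filter, mem_Icc] at hx1'
  obtain ⟨⟨hx1a, hx1b⟩, hx1c⟩ := hx1'
  have roth : ∀ v : ℕ, 1 ≤ v → v ≤ X →
      c * ((s : ℝ) * v) ^ (-(1 + δ)) ≤ nd ((v : ℝ) * ((s : ℝ) * ξ)) := by
    intro v hv hvX
    have := hR (s * v) (Nat.mul_pos hs hv)
    push_cast at this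
    have e : (s : ℝ) * v * ξ = (v : ℝ) * ((s : ℝ) * ξ) := by ring
    rwa [e] at this
  have hex : ∃ v : ℕ, 1 ≤ v ∧ nd ((v : ℝ) * ((s : ℝ) * ξ)) ≤ 2 * η :=
    ⟨x1, hx1a, by linarith⟩
  set w := Nat.find hex with hw
  obtain ⟨hw1, hw2⟩ := Nat.find_spec hex
  rw [← hw] at hw1 hw2
  have hmin : ∀ v : ℕ, 1 ≤ v → v < w → 2 * η < nd ((v : ℝ) * ((s : ℝ) * ξ)) := by
    intro v hv hvw
    have := Nat.find_min hex hvw
    push Not at this
    exact this hv
  have hwX : w ≤ X := (Nat.find_min' hex ⟨hx1a, by linarith⟩).trans hx1b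
  have hw' : (1 : ℝ) ≤ w := by exact_mod_cast hw1
  have hwX' : (w : ℝ) ≤ X := by exact_mod_cast hwX
  set ρ := nd ((w : ℝ) * ((s : ℝ) * ξ)) with hρ
  have hρr : c * ((s : ℝ) * w) ^ (-(1 + δ)) ≤ ρ := roth w hw1 hwX
  have hsw : (0 : ℝ) < (s : ℝ) * w := by positivity
  have hρ0 : 0 < ρ := lt_of_lt_of_le (by positivity) hρr
  -- the core bound, by symmetry
  have hcore : ∃ J : ℕ, (J : ℝ) ≤ 2 * η / ρ ∧ (J : ℝ) ≤ X / w ∧
      ((EE ((s : ℝ) * ξ) η X).card : ℝ) ≤ (2 + 2 * ρ * X) * (1 + J) := by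
    rcases le_or_gt 0 (rr ((w : ℝ) * ((s : ℝ) * ξ))) with h | h
    · refine core ((s : ℝ) * ξ) η ρ w X (round ((w : ℝ) * ((s : ℝ) * ξ))) hη hη4 hw1 ?_ hρ0 hw2 hmin
      rw [hρ, nd_rr, abs_of_nonneg h]
      rfl
    · have hsym : ∀ v : ℕ, nd ((v : ℝ) * (-((s : ℝ) * ξ))) = nd ((v : ℝ) * ((s : ℝ) * ξ)) := by
        intro v
        rw [mul_neg, nd_neg]
      have hEE : EE (-((s : ℝ) * ξ)) η X = EE ((s : ℝ) * ξ) η X := by
        unfold EE
        simp only [hsym]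
      rw [← hEE]
      refine core (-((s : ℝ) * ξ)) η ρ w X (-round ((w : ℝ) * ((s : ℝ) * ξ))) hη hη4 hw1 ?_ hρ0 hw2 ?_
      · rw [hρ, nd_rr, abs_of_neg h]
        unfold rr
        push_cast
        ring
      · intro v hv hvw
        rw [hsym]
        exact hmin v hv hvw
  obtain ⟨J, hJ1, hJ2, hN⟩ := hcore
  -- bounds
  have hBc : c ≤ B := by
    have h1 := roth x1 hx1a hx1b
    have h2 : c * ((s : ℝ) * X) ^ (-(1 + δ)) ≤ η := by
      have hx1' : (1 : ℝ) ≤ x1 := by exact_mod_cast hx1a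
      have hx1X : (x1 : ℝ) ≤ X := by exact_mod_cast hx1b
      have h3 : ((s : ℝ) * X) ^ (-(1 + δ)) ≤ ((s : ℝ) * x1) ^ (-(1 + δ)) := by
        apply Real.rpow_le_rpow_of_nonpos (by positivity)
        · exact mul_le_mul_of_nonneg_left hx1X (by positivity)
        · linarith
      calc c * ((s : ℝ) * X) ^ (-(1 + δ)) ≤ c * ((s : ℝ) * x1) ^ (-(1 + δ)) :=
            mul_le_mul_of_nonneg_left h3 hc.le
        _ ≤ η := h1.trans hx1c
    rw [Real.rpow_neg hsX.le] at h2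
    rw [hB]
    have h4 : 0 < ((s : ℝ) * X) ^ (1 + δ) := by positivity
    calc c = c * (((s : ℝ) * X) ^ (1 + δ))⁻¹ * ((s : ℝ) * X) ^ (1 + δ) := by
          field_simp
      _ ≤ η * ((s : ℝ) * X) ^ (1 + δ) := mul_le_mul_of_nonneg_right h2 h4.le
  have hJB : (J : ℝ) ^ 2 ≤ 4 * (B / c) := by
    have h1 : (J : ℝ) ^ 2 ≤ 2 * η / ρ * (X / w) := by
      rw [pow_two]
      exact mul_le_mul hJ1 hJ2 (by positivity) (by positivity)
    have h2 : c ≤ ρ * w * (((s : ℝ) * X) ^ (1 + δ) / X) := by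
      -- ρ w ≥ c (s w)^(-(1+δ)) w, and (s w)^(1+δ) / w ≤ (s X)^(1+δ) / X
      have h3 : c ≤ ρ * ((s : ℝ) * w) ^ (1 + δ) := by
        rw [Real.rpow_neg hsw.le] at hρr
        have h4 : 0 < ((s : ℝ) * w) ^ (1 + δ) := by positivity
        calc c = c * (((s : ℝ) * w) ^ (1 + δ))⁻¹ * ((s : ℝ) * w) ^ (1 + δ) := by
              field_simp
          _ ≤ ρ * ((s : ℝ) * w) ^ (1 + δ) := mul_le_mul_of_nonneg_right hρr h4.le
      have h5 : ((s : ℝ) * w) ^ (1 + δ) ≤ w * (((s : ℝ) * X) ^ (1 + δ) / X) := by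
        rw [Real.rpow_add hsw, Real.rpow_add hsX, Real.rpow_one, Real.rpow_one]
        have h6 : ((s : ℝ) * w) ^ δ ≤ ((s : ℝ) * X) ^ δ := by
          apply Real.rpow_le_rpow hsw.le _ hδ.le
          exact mul_le_mul_of_nonneg_left hwX' (by positivity)
        calc (s : ℝ) * w * ((s : ℝ) * w) ^ δ ≤ (s : ℝ) * w * ((s : ℝ) * X) ^ δ :=
              mul_le_mul_of_nonneg_left h6 hsw.le
          _ = w * ((s : ℝ) * X * ((s : ℝ) * X) ^ δ / X) := by
              field_simp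
      calc c ≤ ρ * ((s : ℝ) * w) ^ (1 + δ) := h3
        _ ≤ ρ * (w * (((s : ℝ) * X) ^ (1 + δ) / X)) := mul_le_mul_of_nonneg_left h5 hρ0.le
        _ = _ := by ring
    have h7 : 2 * η / ρ * (X / w) ≤ 2 * (B / c) := by
      rw [div_mul_div_comm, ← mul_div_assoc, div_le_div_iff₀ (by positivity) hc]
      have h8 : 0 ≤ 2 * η * X := by positivity
      calc 2 * η * X * c ≤ 2 * η * X * (ρ * w * (((s : ℝ) * X) ^ (1 + δ) / X)) :=
            mul_le_mul_of_nonneg_left h2 h8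
        _ = 2 * B * (ρ * w) := by
            rw [hB]
            field_simp
    have h9 : 0 ≤ B / c := by positivity
    linarith
  have hJs : (J : ℝ) ≤ 2 * Real.sqrt (B / c) := by
    have h1 : (J : ℝ) ≤ Real.sqrt (4 * (B / c)) := Real.le_sqrt_of_sq_le hJB
    have h2 : Real.sqrt (4 * (B / c)) = 2 * Real.sqrt (B / c) := by
      rw [Real.sqrt_mul (by norm_num), show (4 : ℝ) = 2 ^ 2 by norm_num,
        Real.sqrt_sq (by norm_num)]
    linarith
  have h1s : 1 ≤ Real.sqrt (B / c) := by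
    rw [Real.one_le_sqrt, le_div_iff₀ hc]
    linarith
  have hsd : Real.sqrt (B / c) = Real.sqrt B / Real.sqrt c := Real.sqrt_div hBpos.le c
  have hρJ : ρ * J ≤ 2 * η := by
    rw [le_div_iff₀ hρ0] at hJ1
    linarith
  have hfin : (2 + 2 * ρ * X) * (1 + J) ≤ 8 * (η * X) + 6 * Real.sqrt (B / c) := by
    have a1 : 2 * ρ * X ≤ 4 * (η * X) := by nlinarith
    have a2 : 2 * ρ * X * J ≤ 4 * (η * X) := by nlinarith
    nlinarith
  have b1 : 0 ≤ 6 / Real.sqrt c * (η * X) := by positivity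
  calc ((EE ((s : ℝ) * ξ) η X).card : ℝ) ≤ 8 * (η * X) + 6 * Real.sqrt (B / c) := hN.trans hfin
    _ = 8 * (η * X) + 6 / Real.sqrt c * Real.sqrt B := by rw [hsd]; ring
    _ ≤ (8 + 6 / Real.sqrt c) * (η * X + Real.sqrt B) := by nlinarith

end Pool.Agent.Helper73.MD
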